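import Pool.Agent.Helper17.DT.Def

/-!
# Deformations of lines: statements of the parts (swarm DT)
-/

set_option autoImplicit false
set_option linter.unusedSectionVars false

open Polynomial Finset DirectSum

namespace Pool.Agent.Helper17.DT.Spec

open Pool.Agent.Helper766_CF Pool.Agent.Helper766_CG Pool.Agent.Helper766_CH
open Pool.Agent.Helper58.CS Pool.Agent.Helper58.OP Pool.Agent.Helper58.SH Pool.Agent.Helper58.BG
open Pool.Agent.Helper58.LC Pool.Agent.Helper58.NS Pool.Agent.Helper17.DT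

variable {R : Type} [CommRing R] [Algebra ℂ R] {𝒜 : ℕ → Submodule ℂ R} [GradedAlgebra 𝒜]
  {br : R →ₗ[ℂ] R →ₗ[ℂ] R} {k : Type} [Field k] [Algebra ℂ k]

/-- B0 (40 lines). `x r = (f r).coeff 0` is injective, so `LC.Spec.exists_der` gives a derivation `D`
of `k` with `D (x r) = δ r`; `V r` = `D` applied to the coefficients of `f r`
(`LC.Spec.exists_cder`). -/
theorem gen_generic [IsDomain R] {f : R →ₐ[ℂ] k[X]} (hf : IsCurve 𝒜 k 1 f)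
    (hinj : Function.Injective fun r => (f r).coeff 0) : GenAt 𝒜 f 0 := sorry

/-- B1 (150 lines). `M` = `k[X]`-module of the `W` with `IsDer f W`, `N` = span of the sections. `M` is
finitely generated (it embeds in `k[X] ^ generators`). `M = N + (X - lam) M` by `h`, so some
`p ≠ 0` kills `M / N` (Nakayama). Socle: if `W ∈ M` and `(X - μ) W = ∑ pᵢ Vᵢ` then
`W' := W - ∑ pᵢ' Vᵢ`, `pᵢ = C (pᵢ.eval μ) + (X - μ) pᵢ'`, satisfies `(X - μ) W' = ∑ C cᵢ Vᵢ`, which is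
a section, so `W'` is a section (degree), so `W ∈ N`. Factor `p` into linear factors. -/
theorem gen_all [IsAlgClosed k] (hfg : Algebra.FiniteType ℂ R) {f : R →ₐ[ℂ] k[X]}
    (hf : IsCurve 𝒜 k 1 f) {lam : k} (h : GenAt 𝒜 f lam) : GenAll 𝒜 f := sorry

/-- B2 (60 lines). `exists_hv` at the point `eval lam ∘ f` gives a list `L` for `δ`; `W := hv br f` of
the list with coefficients `C q.2` is a derivation along `f`; write it by `h`, evaluate at `lam`. -/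
theorem gen_at (C : Core 𝒜 br) {f : R →ₐ[ℂ] k[X]} (hen : EN 𝒜 f) (h : GenAll 𝒜 f) (lam : k) :
    GenAt 𝒜 f lam := sorry

/-- B3 (100 lines). `W a = reflect d (V a)` for `a ∈ 𝒜 d`, extended linearly (compare `reflHom` in
Helper766_CF/Poisson.lean and Helper78/LC). -/
theorem rev_sec {f g : R →ₐ[ℂ] k[X]} (hfg : Rev 𝒜 f g) (hf : IsCurve 𝒜 k 1 f)
    (hg : IsCurve 𝒜 k 1 g) {V : R →ₗ[ℂ] k[X]} (hV : Sec 𝒜 f V) : ∃ W, Sec 𝒜 g W ∧ Rev 𝒜 V W := sorry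

/-- B4 (100 lines, from B3). `(g a).eval lam⁻¹ = lam ^ (-d) * (f a).eval lam` for `a ∈ 𝒜 d`; apply `h`
to `δ' a = lam ^ d * δ a` and reverse the section. -/
theorem gen_rev {f g : R →ₐ[ℂ] k[X]} (hfg : Rev 𝒜 f g) (hf : IsCurve 𝒜 k 1 f)
    (hg : IsCurve 𝒜 k 1 g) {lam : k} (hl : lam ≠ 0) (h : GenAt 𝒜 f lam) : GenAt 𝒜 g lam⁻¹ := sorry

/-- RV (80 lines). The other chart, over a ring (compare `exists_rev` in Helper78/LC and `reflHom`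
in Helper766_CF/Poisson.lean). -/
theorem exists_rev {T : Type} [CommRing T] [Algebra ℂ T] (F : R →ₐ[ℂ] T[X])
    (hdeg : ∀ d, ∀ a ∈ 𝒜 d, (F a).natDegree ≤ d) :
    ∃ G : R →ₐ[ℂ] T[X], (∀ d, ∀ a ∈ 𝒜 d, (G a).natDegree ≤ d) ∧ Rev 𝒜 F G := sorry

/-- O1 (50 lines). Write `V = hv br x L'` (`exists_hv`); `om V L = - ∑ p.2 * hv br x L p.1`. -/
theorem om_zero (C : Core 𝒜 br) {T : Type} [CommRing T] [Algebra ℂ T] {x : R →ₐ[ℂ] T}
    (hx : EN 𝒜 x) {V : R →ₗ[ℂ] T} (hV : IsDer x V) {L : List (R × T)}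
    (hL : ∀ r, hv br x L r = 0) : om V L = 0 := sorry

/-- O2 (150 lines, from O1). In `k[T;T⁻¹]`: the list for `W'` may be taken homogeneous (`hom_list` in
Helper17/CE/Fam.lean), `(h, p(u))` with `h ∈ 𝒜 e` becomes `(h, p(1/t) t ^ (1 - e))` for `W`, so
`om V' L' (u) = u * om V L (1/u)`. -/
theorem om_rev (C : Core 𝒜 br) {f g : R →ₐ[ℂ] k[X]} (hfg : Rev 𝒜 f g) (hf : IsCurve 𝒜 k 1 f)
    (hg : IsCurve 𝒜 k 1 g) (hen : EN 𝒜 f) (hen' : EN 𝒜 g) {V V' W W' : R →ₗ[ℂ] k[X]}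
    (hV : Sec 𝒜 f V) (hV' : Sec 𝒜 g V') (hW : Sec 𝒜 f W) (hW' : Sec 𝒜 g W')
    (h1 : Rev 𝒜 V V') (h2 : Rev 𝒜 W W') {L L' : List (R × k[X])} (hL : ∀ r, W r = hv br f L r)
    (hL' : ∀ r, W' r = hv br g L' r) : (om V' L').natDegree ≤ 1 ∧
      (om V' L').coeff 1 = (om V L).coeff 0 ∧ (om V' L').coeff 0 = (om V L).coeff 1 := sorry

/-- BA (120 lines). Noether normalization (`exists_basis` in Helper17/CE/Fam.lean, there `s ≤ 2 n`;
the converse inequality: `ringKrullDim_le_of_isIntegral`, Pool/Graph/R_seed8/Helper226/Dim.lean);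
derivations dual to a transcendence basis of `R` (extend `∂ᵢ` to `k` with `exists_der`). -/
theorem exists_der_basis [IsDomain R] (hfg : Algebra.FiniteType ℂ R) {n : ℕ}
    (hdim : ringKrullDim R = (2 * n : ℕ)) {x : R →ₐ[ℂ] k} (hx : Function.Injective x) :
    ∃ δ : Fin (2 * n) → R →ₗ[ℂ] k, (∀ l, IsDer x (δ l)) ∧
      (∀ c : Fin (2 * n) → k, (∀ r, ∑ l, c l * δ l r = 0) → c = 0) ∧
      ∀ δ' : R →ₗ[ℂ] k, IsDer x δ' → ∃ c : Fin (2 * n) → k, ∀ r, δ' r = ∑ l, c l * δ l r := sorry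

/-- R1 (150 lines, pure linear algebra). `G = A + X B`, `M = {q | ∀ r, q ⬝ E r ∈ k[X]} ∋ G⁻¹ E r`,
`U = {u ∈ k^(2n) | G⁻¹ u ∈ M}`. `X G⁻¹ u = B⁻¹ u - G⁻¹ A B⁻¹ u`, so `A B⁻¹ U ⊆ U`. If
`v B⁻¹ u = 0` for all `u ∈ U` then `v ∈ U`: division `E r = u' + G s` gives `u' ∈ U`;
`φ(u) := v G⁻¹ u` satisfies `X φ(u) = φ(S u)` on `U`, `S = - A B⁻¹`, so `χ_S(X) φ(u) = 0` by
Cayley-Hamilton, `φ = 0`; so `(G⁻¹ v) ⬝ E r = - v G⁻¹ E r = - v s`. Hence `dim U ≥ n`. Degree: for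
`u ∈ U` of maximal degree of `(G⁻¹ u) ⬝ E r` use the formula for `X G⁻¹ u`. -/
theorem gram {n : ℕ} (A B : Matrix (Fin (2 * n)) (Fin (2 * n)) k) (hA : A.transpose = -A)
    (hB : B.transpose = -B) (hdet : B.det ≠ 0) (I : Type) (E : I → Fin (2 * n) → k[X])
    (hE : ∀ r r', ∃ p : k[X], algebraMap k[X] (FractionRing k[X]) p =
      ((((A.map Polynomial.C + (X : k[X]) • B.map Polynomial.C).map
        (algebraMap k[X] (FractionRing k[X])))⁻¹).mulVec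
          (fun l => algebraMap k[X] (FractionRing k[X]) (E r l))) ⬝ᵥ
            (fun l => algebraMap k[X] (FractionRing k[X]) (E r' l))) :
    ∃ u : Fin n → Fin (2 * n) → k, LinearIndependent k u ∧ ∀ i r, ∃ p : k[X],
      (∀ d, 0 < d → (∀ l, (E r l).natDegree ≤ d) → p.natDegree < d) ∧
      ((∀ l, (E r l).natDegree = 0) → p = 0) ∧
      algebraMap k[X] (FractionRing k[X]) p =
      ((((A.map Polynomial.C + (X : k[X]) • B.map Polynomial.C).map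
        (algebraMap k[X] (FractionRing k[X])))⁻¹).mulVec
          (fun l => algebraMap k[X] (FractionRing k[X]) (Polynomial.C (u i l)))) ⬝ᵥ
            (fun l => algebraMap k[X] (FractionRing k[X]) (E r l)) := sorry

/-- R2 (200 lines, from R1 O1 O2 B0 B3 BA). Riemann-Roch: `n` independent sections vanishing at the
generic point `f(0)`. `e l` sections of `f` with values at `0` a basis (BA, B0), `e' l` the reversed
sections of `g`, `E r l = e' l r`, `G` their Gram matrix (`om`), `A + X B` by O2, `B` = Gram matrix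
at `f(0)`, invertible. `g (br r ·) = ∑ (G⁻¹ E r)_l e' l` over `k(X)` (BA over `k(X)`), so `hE` holds
(value `g (br r r')`). `w i` := reverse of `∑ (G⁻¹ uᵢ)_l e' l` (degree `< d` so value zero at `0`). -/
theorem exists_van [IsAlgClosed k] [IsDomain R] (C : Core 𝒜 br) {n : ℕ}
    (hdim : ringKrullDim R = (2 * n : ℕ)) {f g : R →ₐ[ℂ] k[X]} (hfg : Rev 𝒜 f g)
    (hf : IsCurve 𝒜 k 1 f) (hg : IsCurve 𝒜 k 1 g)
    (hinj : Function.Injective fun r => (f r).coeff 0) :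
    ∃ w : Fin n → R →ₗ[ℂ] k[X], (∀ i, Sec 𝒜 f (w i)) ∧ (∀ i r, (w i r).coeff 0 = 0) ∧
      LinearIndependent k w := sorry

/-- C1 (150 lines, from BA). `H` = pairs of sections `(V, V')` with the same value at `0`: a finite
dimensional `k`-space (a section is determined by its values of bounded degree on homogeneous
generators of `R`), `(Vᵢ)` a basis. It contains `2n` pairs with values at `0` a basis (BA, GenAt) and
`(w₁ i, 0)`, `(0, w₂ i)`. Every section of `f₁` is in a pair by `GenAt 𝒜 f₂ 0`. -/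
theorem exists_dirs [IsDomain R] (C : Core 𝒜 br) {n : ℕ} (hdim : ringKrullDim R = (2 * n : ℕ))
    {f₁ f₂ : R →ₐ[ℂ] k[X]} (h0 : ∀ r, (f₁ r).coeff 0 = (f₂ r).coeff 0)
    (hinj : Function.Injective fun r => (f₁ r).coeff 0) (hg₁ : GenAt 𝒜 f₁ 0) (hg₂ : GenAt 𝒜 f₂ 0)
    {w₁ w₂ : Fin n → R →ₗ[ℂ] k[X]} (hw₁ : ∀ i, Sec 𝒜 f₁ (w₁ i)) (hw₂ : ∀ i, Sec 𝒜 f₂ (w₂ i))
    (hv₁ : ∀ i r, (w₁ i r).coeff 0 = 0) (hv₂ : ∀ i r, (w₂ i r).coeff 0 = 0)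
    (hi₁ : LinearIndependent k w₁) (hi₂ : LinearIndependent k w₂) :
    ∃ m, 4 * n ≤ m ∧ ∃ V₁ V₂ : Fin m → R →ₗ[ℂ] k[X], (∀ i, Sec 𝒜 f₁ (V₁ i)) ∧
      (∀ i, Sec 𝒜 f₂ (V₂ i)) ∧ (∀ i r, (V₁ i r).coeff 0 = (V₂ i r).coeff 0) ∧
      (∀ c : Fin m → k, (∀ r, ∑ i, Polynomial.C (c i) * V₁ i r = 0) →
        (∀ r, ∑ i, Polynomial.C (c i) * V₂ i r = 0) → c = 0) ∧
      (∀ V, Sec 𝒜 f₁ V → ∃ c : Fin m → k, ∀ r, V r = ∑ i, Polynomial.C (c i) * V₁ i r) ∧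
      ∀ V, Sec 𝒜 f₂ V → ∃ c : Fin m → k, ∀ r, V r = ∑ i, Polynomial.C (c i) * V₂ i r := sorry

/-- C2 (90 lines, linear algebra). Choice of `m` coefficients with a nonzero minor. -/
theorem exists_coord {m : ℕ} {V₁ V₂ : Fin m → R →ₗ[ℂ] k[X]}
    (hind : ∀ c : Fin m → k, (∀ r, ∑ i, Polynomial.C (c i) * V₁ i r = 0) →
        (∀ r, ∑ i, Polynomial.C (c i) * V₂ i r = 0) → c = 0) :
    ∃ z : Fin m → Bool × R × ℕ, (∀ i, ∃ d, (z i).2.1 ∈ 𝒜 d) ∧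
      (Matrix.of fun i l => ((bif (z i).1 then V₁ l (z i).2.1 else V₂ l (z i).2.1).coeff
        (z i).2.2)).det ≠ 0 := sorry

/-- K1 (100 lines). `K` = algebraic closure of the fraction field of `MvPolynomial (Fin m) k`, `D i`
extends `∂ / ∂ sᵢ` (`LC.Spec.exists_der`). -/
theorem exists_field (k : Type) [Field k] [Algebra ℂ k] (m : ℕ) :
    ∃ (K : Type) (_ : Field K) (_ : Algebra ℂ K) (_ : IsAlgClosed K) (j : k →ₐ[ℂ] K)
      (s : Fin m → K) (D : Fin m → Derivation ℂ K K), (∀ i a, D i (j a) = 0) ∧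
      (∀ i l, D i (s l) = if i = l then 1 else 0) ∧
      ∀ P : MvPolynomial (Fin m) k, P ≠ 0 → P.eval₂ (j : k →+* K) s ≠ 0 := sorry

/-- I0 (120 lines). `Pᵢ = j cᵢ + ε yᵢ`, `yᵢ ≡ uᵢ := ∑ j (M i l) s l` mod `ε`, the `uᵢ` are
algebraically independent over `k`. If `Q(P) = 0`, `Q ≠ 0` over `ℂ`: the lowest homogeneous part
`Q_e` of `Q(c + ·)` (over `k`) satisfies `Q_e(u) = 0`. -/
theorem indep_series {K : Type} [Field K] [Algebra ℂ K] (j : k →ₐ[ℂ] K) {m : ℕ} {s : Fin m → K}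
    (hs : ∀ P : MvPolynomial (Fin m) k, P ≠ 0 → P.eval₂ (j : k →+* K) s ≠ 0) (c : Fin m → k)
    (M : Matrix (Fin m) (Fin m) k) (hM : M.det ≠ 0) (P : Fin m → PowerSeries K)
    (h0 : ∀ i, PowerSeries.coeff 0 (P i) = j (c i))
    (h1 : ∀ i, PowerSeries.coeff 1 (P i) = ∑ l, j (M i l) * s l) : AlgebraicIndependent ℂ P := sorry

/-- DA (120 lines; like T1 of NS, H62/NS/T1.lean). Apply `Lift` to
`k[t][ε]/ε^(m+2) → k[t][ε]/ε^(m+1)`; EN because mod the nilpotent `ε` it is `f`. -/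
theorem dlift (hlift : Lift 𝒜) {f : R →ₐ[ℂ] k[X]} (hf : EN 𝒜 f) {m : ℕ} {φ : R →ₗ[ℂ] k[X][X]}
    (h1 : (X : k[X][X]) ^ (m + 1) ∣ φ 1 - 1)
    (h2 : ∀ a b, (X : k[X][X]) ^ (m + 1) ∣ φ (a * b) - φ a * φ b)
    (h0 : ∀ r, (φ r).coeff 0 = f r) :
    ∃ φ' : R →ₗ[ℂ] k[X][X], ((X : k[X][X]) ^ (m + 2) ∣ φ' 1 - 1) ∧
      (∀ a b, (X : k[X][X]) ^ (m + 2) ∣ φ' (a * b) - φ' a * φ' b) ∧
      (∀ r j, j ≤ m → (φ' r).coeff j = (φ r).coeff j) ∧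
      ∀ r j, m + 1 < j → (φ' r).coeff j = 0 := sorry

/-- DB (70 lines, from `Helper17.NS.Spec.side`). Apply `side` to `φ(t, ts)`, that is to `φ` followed
by the homomorphism `k[t][ε] → k[t][s]`, `ε ↦ eps = t s`; `cf (φ'' r) i j = cf (φ r) (i - j) j`. -/
theorem dside [IsAlgClosed k] (C : Core 𝒜 br) (hlift : Lift 𝒜) {f : R →ₐ[ℂ] k[X]}
    (hf : IsCurve 𝒜 k 1 f) (hgg : GG 𝒜 f) {m : ℕ} {φ : R →ₗ[ℂ] k[X][X]}
    (h1 : (X : k[X][X]) ^ (m + 2) ∣ φ 1 - 1)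
    (h2 : ∀ a b, (X : k[X][X]) ^ (m + 2) ∣ φ (a * b) - φ a * φ b)
    (h0 : ∀ r, (φ r).coeff 0 = f r)
    (hs : ∀ d, ∀ a ∈ 𝒜 d, ∀ i j, j ≤ m → d < i → cf (φ a) i j = 0) :
    ∃ δ : R →ₗ[ℂ] k[X], IsDer f δ ∧ (∀ r, (δ r).coeff 0 = 0) ∧
      ∀ d, ∀ a ∈ 𝒜 d, ∀ i, d < i → cf (φ a) i (m + 1) + (δ a).coeff i = 0 := sorry

/-- DC (120 lines, from DA DB). `φ' = φ₁ + ε^(m+1) (δ + V₀)`, `φ₁` from DA, `δ` from DB, `V₀` a section
with `V₀(0) = ` coefficient of `ε^(m+1)` of `q - (φ₁ + ε^(m+1) δ)(0)`, a derivation at `f(0)`. -/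
theorem dstep [IsAlgClosed k] (C : Core 𝒜 br) (hlift : Lift 𝒜) {f : R →ₐ[ℂ] k[X]}
    (hf : IsCurve 𝒜 k 1 f) (hgg : GG 𝒜 f) (hg0 : GenAt 𝒜 f 0) {V : R →ₗ[ℂ] k[X]}
    {q : R →ₐ[ℂ] PowerSeries k} {m : ℕ} (hm : 1 ≤ m) {φ : R →ₗ[ℂ] k[X][X]}
    (h : DSt 𝒜 f V q m φ) :
    ∃ φ', DSt 𝒜 f V q (m + 1) φ' ∧ ∀ r j, j ≤ m → (φ' r).coeff j = (φ r).coeff j := sorry

/-- DL (100 lines; like LM of NS, Helper37/NS/LM.lean). The coefficient of `t^i ε^j` of `F r` is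
`cf (φ j r) i j`. -/
theorem dlimit {f : R →ₐ[ℂ] k[X]} {V : R →ₗ[ℂ] k[X]} {q : R →ₐ[ℂ] PowerSeries k}
    (φ : ℕ → R →ₗ[ℂ] k[X][X]) (h : ∀ m, DSt 𝒜 f V q (m + 1) (φ m))
    (hst : ∀ m r j, j ≤ m + 1 → (φ (m + 1) r).coeff j = (φ m r).coeff j) :
    ∃ F, Dfm 𝒜 f V F ∧ ∀ r, (F r).coeff 0 = q r := sorry

/-- DQ (120 lines). Deformation of a point: lift `R → k[ε]/ε^(m+1)` successively, take the limit. -/
theorem deform_point (hlift : Lift 𝒜) {x : R →ₐ[ℂ] k} (hx : EN 𝒜 x) {δ : R →ₗ[ℂ] k}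
    (hδ : IsDer x δ) : ∃ q : R →ₐ[ℂ] PowerSeries k, (∀ r, PowerSeries.coeff 0 (q r) = x r) ∧
      ∀ r, PowerSeries.coeff 1 (q r) = δ r := sorry

/-- FR (100 lines). `exists_frame`, `exists_nak` (SH/Frame, SH/Nak) at every complex point off the
vertex; the ideal generated by the `det * s` contains a power of every positive degree element
(Nullstellensatz), so one of them is nonzero at `x`. -/
theorem frame_field (C : Core 𝒜 br) {κ : Type} [Field κ] [Algebra ℂ κ] {x : R →ₐ[ℂ] κ}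
    (hx : EN 𝒜 x) : ∃ (N : ℕ) (b : Fin N → R) (u : R), x u ≠ 0 ∧
      x (Matrix.of fun i j => br (b i) (b j)).det ≠ 0 ∧
      ∀ (T : Type) [CommRing T] [Algebra ℂ T] (y : R →ₐ[ℂ] T) (δ : R →ₗ[ℂ] T), IsDer y δ →
        (∀ i, δ (b i) = 0) → ∀ r, y u * δ r = 0 := sorry

/-- S1 (200 lines, from FR). `κ` residue field of `𝒱`, `x̄ : R → κ` the reduction of `F(lam)`; frame
`b` at `x̄`; every vector of `κ^N` is `(δ̄ (b i))` for a combination `δ̄` of the `x̄ (br (b i) ·)`, so by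
`hham` a combination of the reductions of the `w l (b i) (lam)`: some `N × N` minor of
`(w l (b i)).eval lam` is a unit of `𝒱`. Solve for `c` on `b`, then `frame_field` for the rest. -/
theorem sub_int (C : Core 𝒜 br) {K : Type} [Field K] [Algebra ℂ K] (j : k →ₐ[ℂ] K)
    {f : R →ₐ[ℂ] k[X]} (hen : EN 𝒜 f) {m : ℕ} {V : Fin m → R →ₗ[ℂ] k[X]}
    (hham : ∀ h, ∃ p : Fin m → k[X], ∀ r, f (br h r) = ∑ i, p i * V i r)
    {F : R →ₐ[ℂ] (PowerSeries K)[X]} {w : Fin m → R →ₗ[ℂ] (PowerSeries K)[X]}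
    (hF : ∀ r i, PowerSeries.coeff 0 ((F r).coeff i) = j ((f r).coeff i))
    (hw : ∀ l r i, PowerSeries.coeff 0 ((w l r).coeff i) = j ((V l r).coeff i))
    (hder : ∀ l, IsDer F (w l)) {𝒱 : ValuationSubring (Kc K)}
    (h𝒱 : ∀ p, algebraMap (PowerSeries K) (Kc K) p ∈ 𝒱)
    (hε : 𝒱.valuation (algebraMap (PowerSeries K) (Kc K) PowerSeries.X) < 1) {lam : Kc K}
    (hlam : lam ∈ 𝒱) {δ : R →ₗ[ℂ] Kc K} (hδ : DerAt (toK F) lam δ) :
    ∃ c : Fin m → Kc K, ∀ r, δ r =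
      ∑ l, c l * ((w l r).map (algebraMap (PowerSeries K) (Kc K))).eval lam := sorry

/-- DD (50 lines, `LC.Spec.exists_der` for the inclusion of `K[[ε]]`). -/
theorem exists_ext_der {K : Type} [Field K] [Algebra ℂ K] (D : Derivation ℂ K K) :
    ∃ D' : Derivation ℂ (Kc K) (Kc K), ∀ p : PowerSeries K,
      D' (algebraMap (PowerSeries K) (Kc K) p) = algebraMap (PowerSeries K) (Kc K)
        (PowerSeries.mk fun n => D (PowerSeries.coeff n p)) := sorry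

/-- S2 (120 lines, from S1 DD). `w l r` := `ε⁻¹ D l (F r)`, coefficientwise
`PowerSeries.mk fun n => D l (coeff (n + 1) ·)`, constant term `(V l r)` because `D l` kills `j` and
`D l (s i) = δ_li`; the derivation of `Kc K` is `∑ c l ε⁻¹ D'_l`. -/
theorem sub0_int (C : Core 𝒜 br) {K : Type} [Field K] [Algebra ℂ K] (j : k →ₐ[ℂ] K) {m : ℕ}
    {s : Fin m → K} {D : Fin m → Derivation ℂ K K} (hD : ∀ i a, D i (j a) = 0)
    (hDs : ∀ i l, D i (s l) = if i = l then 1 else 0) {f : R →ₐ[ℂ] k[X]} (hen : EN 𝒜 f)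
    {V : Fin m → R →ₗ[ℂ] k[X]}
    (hham : ∀ h, ∃ p : Fin m → k[X], ∀ r, f (br h r) = ∑ i, p i * V i r)
    {F : R →ₐ[ℂ] (PowerSeries K)[X]}
    (hF : ∀ r i, PowerSeries.coeff 0 ((F r).coeff i) = j ((f r).coeff i))
    (hF1 : ∀ r i, PowerSeries.coeff 1 ((F r).coeff i) = ∑ l, s l * j ((V l r).coeff i))
    {𝒱 : ValuationSubring (Kc K)} (h𝒱 : ∀ p, algebraMap (PowerSeries K) (Kc K) p ∈ 𝒱)
    (hε : 𝒱.valuation (algebraMap (PowerSeries K) (Kc K) PowerSeries.X) < 1) {lam : Kc K}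
    (hlam : lam ∈ 𝒱) : Sub0 (toK F) lam := sorry

/-- T1 (80 lines). As B4: the point `g(lam⁻¹)` is `f(lam)` scaled by `lam⁻¹`. -/
theorem sub0_rev {f g : R →ₐ[ℂ] k[X]} (hfg : Rev 𝒜 f g)
    (hf : ∀ d, ∀ a ∈ 𝒜 d, (f a).natDegree ≤ d) (hg : ∀ d, ∀ a ∈ 𝒜 d, (g a).natDegree ≤ d) {lam : k}
    (hl : lam ≠ 0) (h : Sub0 g lam⁻¹) : Sub0 f lam := sorry

/-- VX (50 lines, `LocalSubring.exists_le_valuationSubring`, compare Helper1/NS/C2.lean). -/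
theorem exists_val (K : Type) [Field K] : ∃ 𝒱 : ValuationSubring (Kc K),
    (∀ p, algebraMap (PowerSeries K) (Kc K) p ∈ 𝒱) ∧
      𝒱.valuation (algebraMap (PowerSeries K) (Kc K) PowerSeries.X) < 1 := sorry

/-- NO (100 lines, from O1). `exists_hv` for `q : R → k[[ε]]` (local ring, so EN) and the derivation
`(F₂ ·).coeff 1`; the constant term of the value is the value for `L₀` by O1. -/
theorem nonorth (C : Core 𝒜 br) {f₁ f₂ : R →ₐ[ℂ] k[X]} (hen : EN 𝒜 f₁)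
    {F₁ F₂ : R →ₐ[ℂ] (PowerSeries k)[X]}
    (h1 : ∀ r i, PowerSeries.coeff 0 ((F₁ r).coeff i) = (f₁ r).coeff i)
    (h2 : ∀ r i, PowerSeries.coeff 0 ((F₂ r).coeff i) = (f₂ r).coeff i)
    (h0 : ∀ r, (F₁ r).coeff 0 = (F₂ r).coeff 0) {L₀ : List (R × k)}
    (hL₀ : ∀ r, (f₂ r).coeff 1 = (L₀.map fun q => q.2 * (f₁ (br q.1 r)).coeff 0).sum)
    (hne : (L₀.map fun q => q.2 * (f₁ q.1).coeff 1).sum ≠ 0) :
    ∃ L : List (R × Kc k),
      (∀ r, (toK F₂ r).coeff 1 = (L.map fun q => q.2 * (toK F₁ (br q.1 r)).coeff 0).sum) ∧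
      (L.map fun q => q.2 * (toK F₁ q.1).coeff 1).sum ≠ 0 := sorry

/-- CU (100 lines; compare Helper1/NS/C2.lean). `lam ∈ 𝒱`: reduce; `lam⁻¹ ∈ 𝒱`: the other chart. -/
theorem curve_toK [IsAlgClosed k] {f : R →ₐ[ℂ] k[X]} (hf : IsCurve 𝒜 k 1 f) {V : R →ₗ[ℂ] k[X]}
    {F : R →ₐ[ℂ] (PowerSeries k)[X]} (hF : Dfm 𝒜 f V F) : IsCurve 𝒜 (Kc k) 1 (toK F) := sorry

/-- MCa (40 lines). -/
theorem map_curve [IsAlgClosed k] {K : Type} [Field K] [Algebra ℂ K] (j : k →ₐ[ℂ] K)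
    {f : R →ₐ[ℂ] k[X]} (hf : IsCurve 𝒜 k 1 f) : IsCurve 𝒜 K 1 (mapC j f) := sorry

/-- MCb (60 lines). A derivation at `j(f(0))` is `∑ q.2 * j ((f (br q.1 r)).coeff 0)` by `exists_hv`, and
`(f (br h ·)).coeff 0` is the value at `0` of a section by `h`. -/
theorem map_gen (C : Core 𝒜 br) {K : Type} [Field K] [Algebra ℂ K] (j : k →ₐ[ℂ] K)
    {f : R →ₐ[ℂ] k[X]} (hen : EN 𝒜 f) (h : GenAt 𝒜 f 0) : GenAt 𝒜 (mapC j f) 0 := sorry

end Pool.Agent.Helper17.DT.Spec
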